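import Pool.Agent.Q37.DN.Ring

/-! # Coefficient functionals -/

set_option autoImplicit false

namespace Q37.DN

open IsLocalRing MvPolynomial

universe u

variable (k : Type u) [Field k]

/-- the exponent vector `(a, b, c, d, e)` -/
noncomputable def mn (a b c d e : ℕ) : Fin 5 →₀ ℕ := Finsupp.equivFunOnFinite.symm ![a, b, c, d, e]

lemma mn_eta (m : Fin 5 →₀ ℕ) : mn (m 0) (m 1) (m 2) (m 3) (m 4) = m := by
  ext i; fin_cases i <;> rfl

lemma mn_add (a b c d e a' b' c' d' e' : ℕ) :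
    mn a b c d e + mn a' b' c' d' e' = mn (a + a') (b + b') (c + c') (d + d') (e + e') := by
  ext i; fin_cases i <;> rfl

lemma mn_le (a b c d e a' b' c' d' e' : ℕ) :
    mn a b c d e ≤ mn a' b' c' d' e' ↔ a ≤ a' ∧ b ≤ b' ∧ c ≤ c' ∧ d ≤ d' ∧ e ≤ e' := by
  rw [Finsupp.le_def]
  constructor
  · intro h
    exact ⟨h 0, h 1, h 2, h 3, h 4⟩
  · rintro ⟨h0, h1, h2, h3, h4⟩ i
    fin_cases i
    · exact h0
    · exact h1
    · exact h2
    · exact h3
    · exact h4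

lemma mn_sub (a b c d e a' b' c' d' e' : ℕ) :
    mn a b c d e - mn a' b' c' d' e' = mn (a - a') (b - b') (c - c') (d - d') (e - e') := by
  ext i; fin_cases i <;> rfl

/-- the monomial with exponents `(a, b, c, d, e)` -/
noncomputable def mo (a b c d e : ℕ) : Po k := monomial (mn a b c d e) 1

lemma coeff_mul_mo (p : Po k) (a b c d e a' b' c' d' e' : ℕ) :
    coeff (mn a b c d e) (p * mo k a' b' c' d' e') =
      if a' ≤ a ∧ b' ≤ b ∧ c' ≤ c ∧ d' ≤ d ∧ e' ≤ e then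
        coeff (mn (a - a') (b - b') (c - c') (d - d') (e - e')) p else 0 := by
  unfold mo
  rw [coeff_mul_monomial']
  simp only [mn_le, mn_sub, mul_one]

lemma mo_mul (a b c d e a' b' c' d' e' : ℕ) :
    mo k a b c d e * mo k a' b' c' d' e' = mo k (a + a') (b + b') (c + c') (d + d') (e + e') := by
  unfold mo
  rw [monomial_mul, mn_add, one_mul]

lemma mo_eq (a b c d e : ℕ) : mo k a b c d e = X 0 ^ a * X 1 ^ b * X 2 ^ c * X 3 ^ d * X 4 ^ e := by
  unfold mo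
  rw [monomial_eq, Finsupp.prod_fintype _ _ (fun i => pow_zero _)]
  simp only [Fin.prod_univ_five, C_1, one_mul]
  rfl

lemma X0_eq : (X 0 : Po k) = mo k 1 0 0 0 0 := by rw [mo_eq]; ring
lemma X1_eq : (X 1 : Po k) = mo k 0 1 0 0 0 := by rw [mo_eq]; ring
lemma X2_eq : (X 2 : Po k) = mo k 0 0 1 0 0 := by rw [mo_eq]; ring
lemma X3_eq : (X 3 : Po k) = mo k 0 0 0 1 0 := by rw [mo_eq]; ring
lemma X4_eq : (X 4 : Po k) = mo k 0 0 0 0 1 := by rw [mo_eq]; ring

lemma rels_eq : rels k = {mo k 0 0 5 0 0 - mo k 3 0 0 0 1, mo k 0 0 0 5 0 - mo k 0 3 0 0 1,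
    mo k 0 0 1 1 0, mo k 0 0 1 0 1, mo k 0 0 0 1 1, mo k 0 0 0 0 2} := by
  unfold rels
  have e1 : (X 2 ^ 5 - X 0 ^ 3 * X 4 : Po k) = mo k 0 0 5 0 0 - mo k 3 0 0 0 1 := by
    simp only [mo_eq]; ring
  have e2 : (X 3 ^ 5 - X 1 ^ 3 * X 4 : Po k) = mo k 0 0 0 5 0 - mo k 0 3 0 0 1 := by
    simp only [mo_eq]; ring
  have e3 : (X 2 * X 3 : Po k) = mo k 0 0 1 1 0 := by
    simp only [mo_eq]; ring
  have e4 : (X 4 * X 2 : Po k) = mo k 0 0 1 0 1 := by
    simp only [mo_eq]; ring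
  have e5 : (X 4 * X 3 : Po k) = mo k 0 0 0 1 1 := by
    simp only [mo_eq]; ring
  have e6 : (X 4 ^ 2 : Po k) = mo k 0 0 0 0 2 := by
    simp only [mo_eq]; ring
  rw [e1, e2, e3, e4, e5, e6]

/-- the functional `coeff_{X^3 g} + coeff_{h^5}` -/
noncomputable def phi : Po k →ₗ[k] k := lcoeff k (mn 3 0 0 0 1) + lcoeff k (mn 0 0 5 0 0)

lemma phi_apply (p : Po k) : phi k p = coeff (mn 3 0 0 0 1) p + coeff (mn 0 0 5 0 0) p := rfl

lemma phi_JJ {p : Po k} (hp : p ∈ JJ k) : phi k p = 0 := by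
  unfold JJ at hp
  rw [rels_eq] at hp
  refine Submodule.span_induction (p := fun p _ => ∀ a : Po k, phi k (a * p) = 0) ?_ ?_ ?_ ?_ hp 1 |> fun h => by
    rwa [one_mul] at h
  · intro p hp a
    simp only [Set.mem_insert_iff, Set.mem_singleton_iff] at hp
    rcases hp with rfl | rfl | rfl | rfl | rfl | rfl <;>
      simp [phi_apply, mul_sub, coeff_mul_mo]
  · intro a; simp
  · intro p q _ _ h1 h2 a
    rw [mul_add, map_add, h1, h2, add_zero]
  · intro b p _ h1 a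
    rw [smul_eq_mul, ← mul_assoc]; exact h1 _

/-- the functional `coeff_{X^2 Y^2 g}` -/
noncomputable def psi : Po k →ₗ[k] k := lcoeff k (mn 2 2 0 0 1)

lemma psi_apply (p : Po k) : psi k p = coeff (mn 2 2 0 0 1) p := rfl

lemma psi_JJ {p : Po k} (hp : p ∈ JJ k) : psi k p = 0 := by
  unfold JJ at hp
  rw [rels_eq] at hp
  refine Submodule.span_induction (p := fun p _ => ∀ a : Po k, psi k (a * p) = 0) ?_ ?_ ?_ ?_ hp 1 |> fun h => by
    rwa [one_mul] at h
  · intro p hp a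
    simp only [Set.mem_insert_iff, Set.mem_singleton_iff] at hp
    rcases hp with rfl | rfl | rfl | rfl | rfl | rfl <;>
      simp [psi_apply, mul_sub, coeff_mul_mo]
  · intro a; simp
  · intro p q _ _ h1 h2 a
    rw [mul_add, map_add, h1, h2, add_zero]
  · intro b p _ h1 a
    rw [smul_eq_mul, ← mul_assoc]; exact h1 _

/-- elements of the `n`-th power of the ideal of the variables have no terms of degree `< n` -/
lemma coeff_pow_zero (n : ℕ) {p : Po k} (hp : p ∈ Ideal.span (Set.range (X : Fin 5 → Po k)) ^ n)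
    {m : Fin 5 →₀ ℕ} (hm : m.degree < n) : coeff m p = 0 :=
  (mem_pow_idealOfVars_iff' n p).1 hp m hm

lemma deg_mn (a b c d e : ℕ) : (mn a b c d e).degree = a + b + c + d + e := by
  rw [Finsupp.degree_eq_sum, Fin.sum_univ_five]; rfl

lemma coeff_XY_zero {p : Po k} (hp : p ∈ Ideal.span ({X 0, X 1} : Set (Po k))) {m : Fin 5 →₀ ℕ}
    (h0 : m 0 = 0) (h1 : m 1 = 0) : coeff m p = 0 := by
  have e : ({X 0, X 1} : Set (Po k)) = X '' ({0, 1} : Set (Fin 5)) := by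
    rw [Set.image_pair]
  rw [e, mem_ideal_span_X_image] at hp
  by_contra hc
  obtain ⟨i, hi, hne⟩ := hp m (mem_support_iff.2 hc)
  rcases hi with rfl | rfl
  · exact hne h0
  · exact hne h1

lemma span_le_vars : Ideal.span ({X 0, X 1} : Set (Po k)) ≤ Ideal.span (Set.range (X : Fin 5 → Po k)) := by
  rw [Ideal.span_le]
  rintro _ (rfl | rfl)
  · exact Ideal.subset_span ⟨0, rfl⟩
  · exact Ideal.subset_span ⟨1, rfl⟩

lemma mul_pow_le' {R : Type*} [CommRing R] {A M : Ideal R} (h : A ≤ M) (n : ℕ) :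
    A * M ^ n ≤ M ^ (n + 1) := by
  rw [pow_succ']
  exact Ideal.mul_mono_left h

lemma mem_left' {R : Type*} [CommRing R] (A B : Ideal R) {p : R} (h : p ∈ A * B) : p ∈ A :=
  Ideal.mul_le_left h

lemma phi_A {p : Po k} (hp : p ∈ Ideal.span ({X 0, X 1} : Set (Po k)) *
    Ideal.span (Set.range (X : Fin 5 → Po k)) ^ 4) : phi k p = 0 := by
  have h1 : p ∈ Ideal.span (Set.range (X : Fin 5 → Po k)) ^ (4 + 1) :=
    mul_pow_le' (span_le_vars k) 4 hp
  have h2 : p ∈ Ideal.span ({X 0, X 1} : Set (Po k)) := mem_left' _ _ hp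
  have e1 : coeff (mn 3 0 0 0 1) p = 0 := coeff_pow_zero k (4 + 1) h1 (by rw [deg_mn]; norm_num)
  have e2 : coeff (mn 0 0 5 0 0) p = 0 := coeff_XY_zero k (m := mn 0 0 5 0 0) h2 rfl rfl
  rw [phi_apply, e1, e2, add_zero]

lemma psi_A {p : Po k} (hp : p ∈ Ideal.span (Set.range (X : Fin 5 → Po k)) ^ 6) : psi k p = 0 := by
  exact coeff_pow_zero k 6 (m := mn 2 2 0 0 1) hp (by rw [deg_mn]; norm_num)

lemma phi_h5 (f : Po k) : phi k (f * X 2 ^ 5) = constantCoeff f := by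
  have e : (X 2 ^ 5 : Po k) = mo k 0 0 5 0 0 := by rw [mo_eq]; ring
  rw [e, phi_apply, coeff_mul_mo, coeff_mul_mo, if_neg (by norm_num), if_pos (by norm_num), zero_add,
    constantCoeff_eq]
  congr 1
  ext i; fin_cases i <;> rfl

lemma psi_w (f : Po k) : psi k (f * (X 0 ^ 2 * X 1 ^ 2 * X 4)) = constantCoeff f := by
  have e : (X 0 ^ 2 * X 1 ^ 2 * X 4 : Po k) = mo k 2 2 0 0 1 := by rw [mo_eq]; ring
  rw [e, psi_apply, coeff_mul_mo, if_pos (by norm_num), constantCoeff_eq]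
  congr 1
  ext i; fin_cases i <;> rfl

end Q37.DN
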