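import Mathlib

/-! # Third Dao number and minimal reductions: definitions -/

set_option autoImplicit false

namespace Q37.DN

open IsLocalRing

universe u

section Defs

variable {R : Type u} [CommRing R] [IsLocalRing R]

/-- `J` is weakly `𝔪`-full: `(J 𝔪 : 𝔪) = J`. -/
def IsWeaklyMFull (J : Ideal R) : Prop :=
  ∀ f : R, (∀ z ∈ maximalIdeal R, f * z ∈ J * maximalIdeal R) ↔ f ∈ J

/-- The third Dao number `𝔡₃(I)`: the least `t` such that `I 𝔪 ^ k` is weakly `𝔪`-full for all
`k ≥ t` (`⊤` if there is no such `t`). -/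
noncomputable def thirdDao (I : Ideal R) : ℕ∞ :=
  sInf {t : ℕ∞ | ∃ n : ℕ, t = n ∧ ∀ k ≥ n, IsWeaklyMFull (I * maximalIdeal R ^ k)}

/-- `I` is a reduction of `𝔪`. -/
def IsReduction (I : Ideal R) : Prop :=
  I ≤ maximalIdeal R ∧ ∃ r : ℕ, I * maximalIdeal R ^ r = maximalIdeal R ^ (r + 1)

/-- `I` is a minimal reduction of `𝔪`. -/
def IsMinimalReduction (I : Ideal R) : Prop :=
  IsReduction I ∧ ∀ I' ≤ I, IsReduction I' → I' = I

/-- The reduction number `r_I(𝔪)`: the least `n` with `I 𝔪 ^ n = 𝔪 ^ (n + 1)` (`⊤` if there is no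
such `n`). -/
noncomputable def redNumber (I : Ideal R) : ℕ∞ :=
  sInf {t : ℕ∞ | ∃ n : ℕ, t = n ∧ I * maximalIdeal R ^ n = maximalIdeal R ^ (n + 1)}

/-- `R` is a Cohen–Macaulay local ring: it is Noetherian and its maximal ideal contains a regular
sequence whose length is the Krull dimension. -/
def IsCohenMacaulayLocalRing (R : Type u) [CommRing R] [IsLocalRing R] : Prop :=
  IsNoetherianRing R ∧ ∃ rs : List R, (∀ r ∈ rs, r ∈ maximalIdeal R) ∧
    RingTheory.Sequence.IsRegular R rs ∧ (rs.length : WithBot ℕ∞) = ringKrullDim R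

end Defs

end Q37.DN
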