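import Pool.Agent.Q37.DN.Defs

/-! # Consequences of the relations `h^5 = x^3 g`, `j^5 = y^3 g`, `h j = g h = g j = g^2 = 0` -/

set_option autoImplicit false

namespace Q37.DN

universe u

variable {S : Type u} [CommRing S] {x y h j g : S} (h1 : h ^ 5 = x ^ 3 * g) (h2 : j ^ 5 = y ^ 3 * g)
  (h3 : h * j = 0) (h4 : g * h = 0) (h5 : g * j = 0) (h6 : g ^ 2 = 0)

include h3 h4 h5 h6 in
lemma N2 : Ideal.span {h, j, g} ^ 2 ≤ Ideal.span {h ^ 2, j ^ 2} := by
  rw [pow_two, Ideal.span_mul_span', Ideal.span_le]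
  rintro _ ⟨a, ha, b, hb, rfl⟩
  simp only [Set.mem_insert_iff, Set.mem_singleton_iff] at ha hb
  have z : ∀ w : S, w = 0 → w ∈ Ideal.span {h ^ 2, j ^ 2} := fun w hw => by
    rw [hw]; exact zero_mem _
  rcases ha with rfl | rfl | rfl <;> rcases hb with rfl | rfl | rfl
  · exact Ideal.subset_span (by simp [pow_two])
  · exact z _ h3
  · exact z _ (by linear_combination h4)
  · exact z _ (by linear_combination h3)
  · exact Ideal.subset_span (by simp [pow_two])
  · exact z _ (by linear_combination h5)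
  · exact z _ h4
  · exact z _ h5
  · exact z _ (by linear_combination h6)

include h1 h2 h3 h4 h5 h6 in
lemma N6 : Ideal.span {h, j, g} ^ 6 = ⊥ := by
  have e : Ideal.span {h, j, g} ^ 6 = Ideal.span {h, j, g} ^ 2 * Ideal.span {h, j, g} ^ 2 *
    Ideal.span {h, j, g} ^ 2 := by ring
  rw [eq_bot_iff, e]
  refine (Ideal.mul_mono (Ideal.mul_mono (N2 h3 h4 h5 h6) (N2 h3 h4 h5 h6)) (N2 h3 h4 h5 h6)).trans ?_
  rw [Ideal.span_mul_span', Ideal.span_mul_span', Ideal.span_le]
  rintro _ ⟨_, ⟨a, ha, b, hb, rfl⟩, c, hc, rfl⟩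
  simp only [Set.mem_insert_iff, Set.mem_singleton_iff] at ha hb hc
  show _ * _ * _ = (0 : S)
  have a1 : h ^ 6 = 0 := by linear_combination h * h1 + x ^ 3 * h4
  have a2 : j ^ 6 = 0 := by linear_combination j * h2 + y ^ 3 * h5
  rcases ha with rfl | rfl <;> rcases hb with rfl | rfl <;> rcases hc with rfl | rfl
  · linear_combination a1
  · linear_combination (h ^ 3 * j) * h3
  · linear_combination (h ^ 3 * j) * h3
  · linear_combination (h * j ^ 3) * h3
  · linear_combination (h ^ 3 * j) * h3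
  · linear_combination (h * j ^ 3) * h3
  · linear_combination (h * j ^ 3) * h3
  · linear_combination a2

lemma pow_le (I N : Ideal S) (n : ℕ) : (I ⊔ N) ^ (n + 1) ≤ I * (I ⊔ N) ^ n ⊔ N ^ (n + 1) := by
  induction n with
  | zero => simp
  | succ n ih =>
    have h1 : (I ⊔ N) ^ (n + 1 + 1) = I * (I ⊔ N) ^ (n + 1) ⊔ N * (I ⊔ N) ^ (n + 1) := by
      rw [pow_succ' (I ⊔ N) (n + 1), Ideal.sup_mul]
    rw [h1]
    refine sup_le le_sup_left ?_
    refine (Ideal.mul_mono_right ih).trans ?_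
    rw [Ideal.mul_sup]
    refine sup_le ?_ ?_
    · refine le_trans ?_ le_sup_left
      rw [mul_left_comm, pow_succ' (I ⊔ N) n]
      exact Ideal.mul_mono_right (Ideal.mul_mono_left le_sup_right)
    · rw [← pow_succ']
      exact le_sup_right

include h1 h2 h3 h4 h5 h6 in
lemma red5' : Ideal.span {x, y} * (Ideal.span {x, y} ⊔ Ideal.span {h, j, g}) ^ 5 =
    (Ideal.span {x, y} ⊔ Ideal.span {h, j, g}) ^ 6 := by
  apply le_antisymm
  · rw [pow_succ' _ 5]
    exact Ideal.mul_mono_left le_sup_left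
  · refine (pow_le _ _ 5).trans ?_
    rw [N6 h1 h2 h3 h4 h5 h6, sup_bot_eq]

include h1 h2 h4 h5 h6 in
lemma key' {M : Ideal S} (hx : x ∈ M) (hy : y ∈ M) (hh : h ∈ M) (hj : j ∈ M) {z : S}
    (hz : z ∈ Ideal.span {x, y} ⊔ Ideal.span {h, j, g}) : (x ^ 2 * y ^ 2 * g) * z ∈ M ^ 7 := by
  have hz' : z ∈ Ideal.span ({x, y} ∪ {h, j, g}) := by rwa [Ideal.span_union]
  have z0 : ∀ w : S, w = 0 → w ∈ M ^ 7 := fun w hw => by rw [hw]; exact zero_mem _
  induction hz' using Submodule.span_induction with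
  | mem w hw =>
    simp only [Set.mem_union, Set.mem_insert_iff, Set.mem_singleton_iff] at hw
    rcases hw with (rfl | rfl) | (rfl | rfl | rfl)
    · have : w ^ 2 * y ^ 2 * g * w = y ^ 2 * h ^ 5 := by rw [h1]; ring
      rw [this, show (7 : ℕ) = 2 + 5 from rfl, pow_add]
      exact Ideal.mul_mem_mul (Ideal.pow_mem_pow hy 2) (Ideal.pow_mem_pow hh 5)
    · have : x ^ 2 * w ^ 2 * g * w = x ^ 2 * j ^ 5 := by rw [h2]; ring
      rw [this, show (7 : ℕ) = 2 + 5 from rfl, pow_add]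
      exact Ideal.mul_mem_mul (Ideal.pow_mem_pow hx 2) (Ideal.pow_mem_pow hj 5)
    · exact z0 _ (by linear_combination (x ^ 2 * y ^ 2) * h4)
    · exact z0 _ (by linear_combination (x ^ 2 * y ^ 2) * h5)
    · exact z0 _ (by linear_combination (x ^ 2 * y ^ 2) * h6)
  | zero => rw [mul_zero]; exact zero_mem _
  | add a b ha hb i1 i2 =>
    rw [mul_add]
    exact add_mem (i1 (by rw [← Ideal.span_union]; exact ha)) (i2 (by rw [← Ideal.span_union]; exact hb))
  | smul a w hw i1 =>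
    have : x ^ 2 * y ^ 2 * g * a • w = a * (x ^ 2 * y ^ 2 * g * w) := by
      rw [smul_eq_mul]; ring
    rw [this]
    exact Ideal.mul_mem_left _ _ (i1 (by rw [← Ideal.span_union]; exact hw))

end Q37.DN
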