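import Pool.Agent.Q37.DN.Ring

/-! # The local ring -/

set_option autoImplicit false

namespace Q37.DN

open IsLocalRing MvPolynomial

universe u

variable (k : Type u) [Field k] (S : Type u) [CommRing S] [IsLocalRing S] [Algebra (BB k) S]
  [IsLocalization.AtPrime S (mm k)]

omit [IsLocalRing S] [IsLocalization.AtPrime S (mm k)] in
/-- the five generators in `S` -/
noncomputable def vr (i : Fin 5) : S := algebraMap (BB k) S (Ideal.Quotient.mk _ (X i))

omit [IsLocalRing S] [IsLocalization.AtPrime S (mm k)] in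
lemma rel_zero {f : Po k} (hf : f ∈ rels k) :
    algebraMap (BB k) S (Ideal.Quotient.mk (JJ k) f) = 0 := by
  rw [Ideal.Quotient.eq_zero_iff_mem.2 (show f ∈ JJ k from Ideal.subset_span hf), map_zero]

omit [IsLocalRing S] [IsLocalization.AtPrime S (mm k)] in
lemma r1 : vr k S 2 ^ 5 = vr k S 0 ^ 3 * vr k S 4 := by
  have := rel_zero k S (f := X 2 ^ 5 - X 0 ^ 3 * X 4) (by simp [rels])
  simp only [map_sub, map_mul, map_pow, sub_eq_zero] at this
  exact this

omit [IsLocalRing S] [IsLocalization.AtPrime S (mm k)] in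
lemma r2 : vr k S 3 ^ 5 = vr k S 1 ^ 3 * vr k S 4 := by
  have := rel_zero k S (f := X 3 ^ 5 - X 1 ^ 3 * X 4) (by simp [rels])
  simp only [map_sub, map_mul, map_pow, sub_eq_zero] at this
  exact this

omit [IsLocalRing S] [IsLocalization.AtPrime S (mm k)] in
lemma r3 : vr k S 2 * vr k S 3 = 0 := by
  have := rel_zero k S (f := X 2 * X 3) (by simp [rels])
  simp only [map_mul] at this
  exact this

omit [IsLocalRing S] [IsLocalization.AtPrime S (mm k)] in
lemma r4 : vr k S 4 * vr k S 2 = 0 := by
  have := rel_zero k S (f := X 4 * X 2) (by simp [rels])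
  simp only [map_mul] at this
  exact this

omit [IsLocalRing S] [IsLocalization.AtPrime S (mm k)] in
lemma r5 : vr k S 4 * vr k S 3 = 0 := by
  have := rel_zero k S (f := X 4 * X 3) (by simp [rels])
  simp only [map_mul] at this
  exact this

omit [IsLocalRing S] [IsLocalization.AtPrime S (mm k)] in
lemma r6 : vr k S 4 ^ 2 = 0 := by
  have := rel_zero k S (f := X 4 ^ 2) (by simp [rels])
  simp only [map_pow] at this
  exact this

lemma max_eq : maximalIdeal S = Ideal.span (Set.range (vr k S)) := by
  rw [← IsLocalization.AtPrime.map_eq_maximalIdeal (mm k) S, mm_eq, Ideal.map_span,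
    ← Set.range_comp]
  rfl

lemma vr_mem (i : Fin 5) : vr k S i ∈ maximalIdeal S := by
  rw [max_eq k S]; exact Ideal.subset_span ⟨i, rfl⟩

omit [IsLocalRing S] [IsLocalization.AtPrime S (mm k)] in
/-- the reduction -/
noncomputable def II : Ideal S := Ideal.span {vr k S 0, vr k S 1}

omit [IsLocalRing S] [IsLocalization.AtPrime S (mm k)] in
/-- the nilpotent part -/
noncomputable def NN : Ideal S := Ideal.span {vr k S 2, vr k S 3, vr k S 4}

lemma II_le : II k S ≤ maximalIdeal S := by
  unfold II
  rw [Ideal.span_le]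
  rintro _ (rfl | rfl)
  · exact vr_mem k S 0
  · exact vr_mem k S 1

lemma NN_le : NN k S ≤ maximalIdeal S := by
  unfold NN
  rw [Ideal.span_le]
  rintro _ (rfl | rfl | rfl)
  · exact vr_mem k S 2
  · exact vr_mem k S 3
  · exact vr_mem k S 4

lemma sup_eq : maximalIdeal S = II k S ⊔ NN k S := by
  apply le_antisymm
  · rw [max_eq k S, Ideal.span_le]
    rintro _ ⟨i, rfl⟩
    fin_cases i
    · exact Submodule.mem_sup_left (Ideal.subset_span (by simp))
    · exact Submodule.mem_sup_left (Ideal.subset_span (by simp))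
    · exact Submodule.mem_sup_right (Ideal.subset_span (by simp))
    · exact Submodule.mem_sup_right (Ideal.subset_span (by simp))
    · exact Submodule.mem_sup_right (Ideal.subset_span (by simp))
  · exact sup_le (II_le k S) (NN_le k S)

lemma red5 : II k S * maximalIdeal S ^ 5 = maximalIdeal S ^ 6 := by
  rw [sup_eq k S]
  exact red5' (r1 k S) (r2 k S) (r3 k S) (r4 k S) (r5 k S) (r6 k S)

lemma key_mem : ∀ z ∈ maximalIdeal S,
    (vr k S 0 ^ 2 * vr k S 1 ^ 2 * vr k S 4) * z ∈ maximalIdeal S ^ 7 := by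
  intro z hz
  have hz' := hz
  rw [sup_eq k S] at hz'
  exact key' (r1 k S) (r2 k S) (r4 k S) (r5 k S) (r6 k S) (vr_mem k S 0) (vr_mem k S 1)
    (vr_mem k S 2) (vr_mem k S 3) hz'

end Q37.DN
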