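import Pool.Agent.Q37.DN.NF
import Pool.Agent.Q37.DN.Loc

/-! # The local ring: regular sequence, dimension, non-memberships -/

set_option autoImplicit false

namespace Q37.DN

open IsLocalRing MvPolynomial

universe u

variable (k : Type u) [Field k]

lemma wreg : RingTheory.Sequence.IsWeaklyRegular (BB k)
    [Ideal.Quotient.mk (JJ k) (X 0), Ideal.Quotient.mk (JJ k) (X 1)] := by
  rw [RingTheory.Sequence.isWeaklyRegular_cons_iff, RingTheory.Sequence.isWeaklyRegular_cons_iff]
  refine ⟨?_, ?_, RingTheory.Sequence.IsWeaklyRegular.nil _ _⟩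
  · rw [isSMulRegular_iff_right_eq_zero_of_smul]
    intro b hb
    obtain ⟨f, rfl⟩ := Ideal.Quotient.mk_surjective b
    rw [smul_eq_mul, ← map_mul, Ideal.Quotient.eq_zero_iff_mem, mul_comm] at hb
    exact Ideal.Quotient.eq_zero_iff_mem.2 (reg0 k hb)
  · rw [isSMulRegular_quotient_iff_mem_of_smul_mem]
    intro b hb
    obtain ⟨f, rfl⟩ := Ideal.Quotient.mk_surjective b
    rw [Submodule.mem_smul_pointwise_iff_exists] at hb
    obtain ⟨c, -, hc⟩ := hb
    obtain ⟨g, rfl⟩ := Ideal.Quotient.mk_surjective c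
    simp only [smul_eq_mul, ← map_mul] at hc
    rw [eq_comm, Ideal.Quotient.eq, mul_comm (X 1) f, mul_comm (X 0) g] at hc
    obtain ⟨u, hu⟩ := reg1 k hc
    rw [Submodule.mem_smul_pointwise_iff_exists]
    refine ⟨Ideal.Quotient.mk _ u, trivial, ?_⟩
    rw [smul_eq_mul, ← map_mul, eq_comm, Ideal.Quotient.eq, mul_comm (X 0) u]
    exact hu

variable (S : Type u) [CommRing S] [IsLocalRing S] [Algebra (BB k) S]
  [IsLocalization.AtPrime S (mm k)]

lemma mk_mem_mm (i : Fin 5) : Ideal.Quotient.mk (JJ k) (X i) ∈ mm k := by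
  rw [mm_eq]; exact Ideal.subset_span ⟨i, rfl⟩

omit [IsLocalRing S] in
lemma sreg : RingTheory.Sequence.IsRegular S [vr k S 0, vr k S 1] := by
  have := (wreg k).isRegular_of_isLocalization_of_mem S (mm k) (by
    intro r hr
    simp only [List.mem_cons, List.not_mem_nil, or_false] at hr
    rcases hr with rfl | rfl <;> exact mk_mem_mm k _)
  exact this

include k in
omit [IsLocalRing S] in
lemma noeth : IsNoetherianRing S := IsLocalization.isNoetherianRing (mm k).primeCompl S inferInstance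

lemma dimQ : ringKrullDim (S ⧸ Ideal.ofList [vr k S 0, vr k S 1]) = 0 := by
  have hI : Ideal.ofList [vr k S 0, vr k S 1] = II k S := by
    simp only [Ideal.ofList_cons, Ideal.ofList_nil, sup_bot_eq]
    unfold II
    rw [← Ideal.span_union]; rfl
  rw [hI]
  have hne : II k S ≠ ⊤ := fun h => (Ideal.ne_top_iff_one _).1 (maximalIdeal.isMaximal S).ne_top
    ((h ▸ II_le k S : (⊤ : Ideal S) ≤ maximalIdeal S) trivial)
  have : Nontrivial (S ⧸ II k S) := Ideal.Quotient.nontrivial_iff.2 hne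
  have h0 : Ring.KrullDimLE 0 (S ⧸ II k S) := by
    rw [Ring.krullDimLE_zero_iff]
    intro P hP
    have hP' : (P.comap (Ideal.Quotient.mk (II k S))).IsPrime := hP.comap _
    have hle : II k S ≤ P.comap (Ideal.Quotient.mk (II k S)) := by
      intro a ha
      rw [Ideal.mem_comap, Ideal.Quotient.eq_zero_iff_mem.2 ha]; exact zero_mem _
    have hm : maximalIdeal S ≤ P.comap (Ideal.Quotient.mk (II k S)) := by
      have : maximalIdeal S ^ 6 ≤ P.comap (Ideal.Quotient.mk (II k S)) := by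
        rw [← red5 k S]
        exact Ideal.mul_le_left.trans hle
      exact hP'.le_of_pow_le this
    have he : P.comap (Ideal.Quotient.mk (II k S)) = maximalIdeal S :=
      ((maximalIdeal.isMaximal S).eq_of_le hP'.ne_top hm).symm
    have : (P.comap (Ideal.Quotient.mk (II k S))).IsMaximal := he ▸ maximalIdeal.isMaximal S
    have := Ideal.map_comap_of_surjective (Ideal.Quotient.mk (II k S)) Ideal.Quotient.mk_surjective P
    rw [← this]
    refine (Ideal.map_eq_top_or_isMaximal_of_surjective _ Ideal.Quotient.mk_surjective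
      ‹_›).resolve_left ?_
    rw [this]; exact hP.ne_top
  exact ringKrullDimZero_iff_ringKrullDim_eq_zero.1 h0

include k in
lemma dimS : ringKrullDim S = 2 := by
  have := noeth k S
  have := ringKrullDim_add_length_eq_ringKrullDim_of_isRegular _ (sreg k S)
  rw [dimQ, zero_add] at this
  rw [← this]; rfl

/-! ### non-memberships -/

omit [IsLocalRing S] in
lemma pull (A : Ideal (Po k)) (L : Po k →ₗ[k] k) (hA : ∀ p ∈ A, L p = 0) (hJ : ∀ p ∈ JJ k, L p = 0)
    {p : Po k} (hp : algebraMap (BB k) S (Ideal.Quotient.mk (JJ k) p) ∈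
      (A.map (Ideal.Quotient.mk (JJ k))).map (algebraMap (BB k) S)) :
    ∃ f : Po k, constantCoeff f ≠ 0 ∧ L (f * p) = 0 := by
  rw [IsLocalization.algebraMap_mem_map_algebraMap_iff (mm k).primeCompl S] at hp
  obtain ⟨m, hm, h⟩ := hp
  obtain ⟨f, rfl⟩ := Ideal.Quotient.mk_surjective m
  refine ⟨f, fun h0 => hm ?_, ?_⟩
  · show ev k _ = 0
    rw [ev_mk, h0]
  · rw [← map_mul] at h
    obtain ⟨a, ha, hae⟩ := (Ideal.mem_map_iff_of_surjective _ Ideal.Quotient.mk_surjective).1 h
    rw [Ideal.Quotient.eq] at hae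
    have := hJ _ hae
    rw [map_sub, hA a ha, zero_sub, neg_eq_zero] at this
    exact this

omit [IsLocalRing S] [IsLocalization.AtPrime S (mm k)] in
lemma II_map : II k S = ((Ideal.span ({X 0, X 1} : Set (Po k))).map (Ideal.Quotient.mk (JJ k))).map
    (algebraMap (BB k) S) := by
  rw [Ideal.map_span, Ideal.map_span, Set.image_pair, Set.image_pair]
  rfl

lemma max_map : maximalIdeal S = ((Ideal.span (Set.range (X : Fin 5 → Po k))).map
    (Ideal.Quotient.mk (JJ k))).map (algebraMap (BB k) S) := by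
  rw [Ideal.map_span, Ideal.map_span, max_eq k S, ← Set.range_comp, ← Set.range_comp]
  rfl

lemma h5_not_mem : vr k S 2 ^ 5 ∉ II k S * maximalIdeal S ^ 4 := by
  intro h
  rw [II_map, max_map k S, ← Ideal.map_pow, ← Ideal.map_pow, ← Ideal.map_mul, ← Ideal.map_mul] at h
  have e : vr k S 2 ^ 5 = algebraMap (BB k) S (Ideal.Quotient.mk (JJ k) (X 2 ^ 5)) := by
    rw [map_pow, map_pow]; rfl
  rw [e] at h
  obtain ⟨f, hf, h0⟩ := pull k S _ (phi k) (fun p hp => phi_A k hp) (fun p hp => phi_JJ k hp) h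
  rw [phi_h5] at h0
  exact hf h0

lemma w_not_mem : vr k S 0 ^ 2 * vr k S 1 ^ 2 * vr k S 4 ∉ maximalIdeal S ^ 6 := by
  intro h
  rw [max_map k S, ← Ideal.map_pow, ← Ideal.map_pow] at h
  have e : vr k S 0 ^ 2 * vr k S 1 ^ 2 * vr k S 4 =
      algebraMap (BB k) S (Ideal.Quotient.mk (JJ k) (X 0 ^ 2 * X 1 ^ 2 * X 4)) := by
    rw [map_mul, map_mul, map_mul, map_mul, map_pow, map_pow, map_pow, map_pow]; rfl
  rw [e] at h
  obtain ⟨f, hf, h0⟩ := pull k S _ (psi k) (fun p hp => psi_A k hp) (fun p hp => psi_JJ k hp) h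
  rw [psi_w] at h0
  exact hf h0

/-! ### reduction number and third Dao number -/

lemma red_eq : redNumber (II k S) = 5 := by
  apply le_antisymm
  · exact sInf_le ⟨5, rfl, red5 k S⟩
  · refine le_sInf ?_
    rintro _ ⟨n, rfl, hn⟩
    by_contra hc
    have hn5 : n ≤ 4 := by
      have : (n : ℕ∞) < (5 : ℕ) := lt_of_not_ge hc
      have := Nat.cast_lt.1 this
      omega
    apply h5_not_mem k S
    have e : II k S * maximalIdeal S ^ 4 = maximalIdeal S ^ 5 := by
      have : II k S * maximalIdeal S ^ n * maximalIdeal S ^ (4 - n) =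
        maximalIdeal S ^ (n + 1) * maximalIdeal S ^ (4 - n) := by rw [hn]
      rwa [mul_assoc, ← pow_add, ← pow_add, show n + (4 - n) = 4 by omega,
        show n + 1 + (4 - n) = 5 by omega] at this
    rw [e]
    exact Ideal.pow_mem_pow (vr_mem k S 2) 5

lemma dao_ge : 6 ≤ thirdDao (II k S) := by
  refine le_sInf ?_
  rintro _ ⟨n, rfl, hn⟩
  by_contra hc
  have hn5 : n ≤ 5 := by
    have : (n : ℕ∞) < (6 : ℕ) := lt_of_not_ge hc
    have := Nat.cast_lt.1 this
    omega
  have h := (hn 5 hn5 (vr k S 0 ^ 2 * vr k S 1 ^ 2 * vr k S 4)).1 (by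
    intro z hz
    rw [red5 k S, ← pow_succ]
    exact key_mem k S z hz)
  rw [red5 k S] at h
  exact w_not_mem k S h

end Q37.DN
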