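import Pool.Agent.Q37.DN.Loc2

/-! # Minimality of the reduction -/

set_option autoImplicit false

namespace Q37.DN

open IsLocalRing MvPolynomial

universe u

variable (k : Type u) [Field k]

/-- `BB → k⟦T⟧`, `x ↦ p T`, `y ↦ q T` -/
noncomputable def ps (p q : k) : BB k →+* PowerSeries k :=
  (lin k (PowerSeries.C p * PowerSeries.X) (PowerSeries.C q * PowerSeries.X) :
    BB k →ₐ[k] PowerSeries k).toRingHom

lemma ps_mk (p q : k) (f : Po k) : ps k p q (Ideal.Quotient.mk _ f) =
    aeval ![PowerSeries.C p * PowerSeries.X, PowerSeries.C q * PowerSeries.X, 0, 0, 0] f := rfl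

lemma cc_ps (p q : k) (b : BB k) : PowerSeries.constantCoeff (ps k p q b) = ev k b := by
  obtain ⟨f, rfl⟩ := Ideal.Quotient.mk_surjective b
  rw [ev_mk, ps_mk]
  have : (PowerSeries.constantCoeff (R := k)).comp ((aeval ![PowerSeries.C p * PowerSeries.X,
      PowerSeries.C q * PowerSeries.X, 0, 0, 0] : Po k →ₐ[k] PowerSeries k) : Po k →+* PowerSeries k) =
      (constantCoeff : Po k →+* k) := by
    apply MvPolynomial.ringHom_ext
    · intro a
      simp
    · intro i
      fin_cases i <;> simp
  exact RingHom.congr_fun this f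

lemma ps_unit (p q : k) (y : (mm k).primeCompl) : IsUnit (ps k p q y) := by
  rw [PowerSeries.isUnit_iff_constantCoeff, cc_ps]
  exact isUnit_iff_ne_zero.2 y.2

variable (S : Type u) [CommRing S] [IsLocalRing S] [Algebra (BB k) S]
  [IsLocalization.AtPrime S (mm k)]

omit [IsLocalRing S] in
/-- `S → k⟦T⟧`, `x ↦ p T`, `y ↦ q T` -/
noncomputable def sp (p q : k) : S →+* PowerSeries k := IsLocalization.lift (ps_unit k p q)

omit [IsLocalRing S] in
lemma sp_alg (p q : k) (b : BB k) : sp k S p q (algebraMap (BB k) S b) = ps k p q b :=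
  IsLocalization.lift_eq _ _

omit [IsLocalRing S] in
/-- the residue map -/
noncomputable def eps : S →+* k := (PowerSeries.constantCoeff (R := k)).comp (sp k S 0 0)

omit [IsLocalRing S] in
lemma eps_alg (b : BB k) : eps k S (algebraMap (BB k) S b) = ev k b := by
  unfold eps
  rw [RingHom.comp_apply, sp_alg, cc_ps]

omit [IsLocalRing S] in
lemma cc_sp (p q : k) (s : S) : PowerSeries.constantCoeff (sp k S p q s) = eps k S s := by
  have : (PowerSeries.constantCoeff (R := k)).comp (sp k S p q) = eps k S := by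
    apply IsLocalization.ringHom_ext (mm k).primeCompl
    refine RingHom.ext fun b => ?_
    rw [RingHom.comp_apply, RingHom.comp_apply, RingHom.comp_apply, sp_alg, cc_ps, eps_alg]
  exact RingHom.congr_fun this s

omit [IsLocalRing S] in
/-- constants -/
noncomputable def cst : k →+* S := (algebraMap (BB k) S).comp (algebraMap k (BB k))

omit [IsLocalRing S] in
lemma eps_cst (c : k) : eps k S (cst k S c) = c := by
  unfold cst
  rw [RingHom.comp_apply, eps_alg, AlgHom.commutes]; rfl

lemma eps_ker : RingHom.ker (eps k S) = maximalIdeal S :=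
  IsLocalRing.eq_maximalIdeal (RingHom.ker_isMaximal_of_surjective _ fun c => ⟨cst k S c, eps_cst k S c⟩)

omit [IsLocalRing S] in
lemma sp0 (p q : k) : sp k S p q (vr k S 0) = PowerSeries.C p * PowerSeries.X := by
  unfold vr
  rw [sp_alg, ps_mk]
  simp

omit [IsLocalRing S] in
lemma sp1 (p q : k) : sp k S p q (vr k S 1) = PowerSeries.C q * PowerSeries.X := by
  unfold vr
  rw [sp_alg, ps_mk]
  simp

lemma sp_max (p q : k) {s : S} (hs : s ∈ maximalIdeal S) :
    sp k S p q s ∈ Ideal.span {(PowerSeries.X : PowerSeries k)} := by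
  rw [Ideal.mem_span_singleton, PowerSeries.X_dvd_iff, cc_sp]
  rw [← eps_ker k S] at hs
  exact hs

lemma not_red {I' : Ideal S} (hI : I' ≤ II k S) (p q : k)
    (h : ∀ a b : S, a * vr k S 0 + b * vr k S 1 ∈ I' → eps k S a * p + eps k S b * q = 0)
    {r : ℕ} (hr : I' * maximalIdeal S ^ r = maximalIdeal S ^ (r + 1)) : p = 0 ∧ q = 0 := by
  have h1 : I'.map (sp k S p q) ≤ Ideal.span {(PowerSeries.X : PowerSeries k)} ^ 2 := by
    rw [Ideal.map_le_iff_le_comap]
    intro z hz
    obtain ⟨a, b, rfl⟩ := Ideal.mem_span_pair.1 (hI hz)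
    have h0 := h a b hz
    rw [Ideal.mem_comap, map_add, map_mul, map_mul, sp0, sp1, Ideal.span_singleton_pow,
      Ideal.mem_span_singleton]
    have e : sp k S p q a * (PowerSeries.C p * PowerSeries.X) +
        sp k S p q b * (PowerSeries.C q * PowerSeries.X) =
        (sp k S p q a * PowerSeries.C p + sp k S p q b * PowerSeries.C q) * PowerSeries.X := by ring
    rw [e, pow_two]
    refine mul_dvd_mul ?_ dvd_rfl
    rw [PowerSeries.X_dvd_iff, map_add, map_mul, map_mul, cc_sp, cc_sp,
      PowerSeries.constantCoeff_C, PowerSeries.constantCoeff_C]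
    exact h0
  have h2 : (maximalIdeal S).map (sp k S p q) ≤ Ideal.span {(PowerSeries.X : PowerSeries k)} := by
    rw [Ideal.map_le_iff_le_comap]
    intro z hz
    exact sp_max k S p q hz
  have h3 : ∀ z ∈ maximalIdeal S ^ (r + 1), sp k S p q z ∈
      Ideal.span {(PowerSeries.X : PowerSeries k)} ^ (2 + r) := by
    intro z hz
    rw [← hr] at hz
    have := Ideal.mem_map_of_mem (sp k S p q) hz
    rw [Ideal.map_mul, Ideal.map_pow] at this
    rw [pow_add]
    exact Ideal.mul_mono h1 (Ideal.pow_right_mono h2 r) this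
  have key : ∀ (c : k) (z : S), z ∈ maximalIdeal S →
      sp k S p q z = PowerSeries.C c * PowerSeries.X → c = 0 := by
    intro c z hz e
    have := h3 _ (Ideal.pow_mem_pow hz (r + 1))
    rw [map_pow, e, mul_pow, ← map_pow, Ideal.span_singleton_pow, Ideal.mem_span_singleton,
      PowerSeries.X_pow_dvd_iff] at this
    have h4 := this (r + 1) (by omega)
    rw [PowerSeries.coeff_C_mul, PowerSeries.coeff_X_pow_self, mul_one] at h4
    exact pow_eq_zero_iff (by omega) |>.1 h4
  exact ⟨key p _ (vr_mem k S 0) (sp0 k S p q), key q _ (vr_mem k S 1) (sp1 k S p q)⟩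

/-- the space of leading coefficients -/
noncomputable def LL (I' : Ideal S) : Submodule k (k × k) where
  carrier := {v | ∃ a b : S, a * vr k S 0 + b * vr k S 1 ∈ I' ∧ eps k S a = v.1 ∧ eps k S b = v.2}
  add_mem' := by
    rintro v w ⟨a, b, h, h1, h2⟩ ⟨a', b', h', h1', h2'⟩
    refine ⟨a + a', b + b', ?_, ?_, ?_⟩
    · have : (a + a') * vr k S 0 + (b + b') * vr k S 1 =
        (a * vr k S 0 + b * vr k S 1) + (a' * vr k S 0 + b' * vr k S 1) := by ring
      rw [this]; exact add_mem h h'
    · rw [map_add, h1, h1']; rfl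
    · rw [map_add, h2, h2']; rfl
  zero_mem' := ⟨0, 0, by simp, by simp, by simp⟩
  smul_mem' := by
    rintro c v ⟨a, b, h, h1, h2⟩
    refine ⟨cst k S c * a, cst k S c * b, ?_, ?_, ?_⟩
    · have : cst k S c * a * vr k S 0 + cst k S c * b * vr k S 1 =
        cst k S c * (a * vr k S 0 + b * vr k S 1) := by ring
      rw [this]; exact Ideal.mul_mem_left _ _ h
    · rw [map_mul, eps_cst, h1]; rfl
    · rw [map_mul, eps_cst, h2]; rfl

lemma min_red : IsMinimalReduction (II k S) := by
  refine ⟨⟨II_le k S, 5, red5 k S⟩, ?_⟩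
  rintro I' hI ⟨hI', r, hr⟩
  by_cases hL : LL k S I' = ⊤
  · apply le_antisymm hI
    have hx : ((1 : k), (0 : k)) ∈ LL k S I' := hL ▸ trivial
    have hy : ((0 : k), (1 : k)) ∈ LL k S I' := hL ▸ trivial
    obtain ⟨a, b, h, h1, h2⟩ := hx
    obtain ⟨a', b', h', h1', h2'⟩ := hy
    have fg : (II k S).FG := Submodule.fg_span (Set.toFinite _)
    refine Submodule.le_of_le_smul_of_le_jacobson_bot fg
      (IsLocalRing.maximalIdeal_le_jacobson ⊥) ?_
    have hin : ∀ c : S, eps k S c = 0 → c ∈ maximalIdeal S := fun c hc => by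
      rw [← eps_ker k S]; exact hc
    have gx : vr k S 0 ∈ II k S := Ideal.subset_span (by simp)
    have gy : vr k S 1 ∈ II k S := Ideal.subset_span (by simp)
    have key : ∀ (c d z : S), c * vr k S 0 + d * vr k S 1 ∈ I' →
        z - (c * vr k S 0 + d * vr k S 1) ∈ maximalIdeal S • II k S →
        z ∈ I' ⊔ maximalIdeal S • II k S := by
      intro c d z hc hd
      have := add_mem (Submodule.mem_sup_left hc : _ ∈ I' ⊔ maximalIdeal S • II k S)
        (Submodule.mem_sup_right hd)
      rwa [add_sub_cancel] at this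
    conv_lhs => unfold II
    rw [Ideal.span_le]
    rintro _ (rfl | rfl)
    · refine key a b _ h ?_
      have : vr k S 0 - (a * vr k S 0 + b * vr k S 1) =
        (1 - a) • vr k S 0 + (-b) • vr k S 1 := by simp only [smul_eq_mul]; ring
      rw [this]
      exact add_mem (Submodule.smul_mem_smul (hin _ (by rw [map_sub, map_one, h1, sub_self])) gx)
        (Submodule.smul_mem_smul (hin _ (by rw [map_neg, h2, neg_zero])) gy)
    · refine key a' b' _ h' ?_
      have : vr k S 1 - (a' * vr k S 0 + b' * vr k S 1) =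
        (-a') • vr k S 0 + (1 - b') • vr k S 1 := by simp only [smul_eq_mul]; ring
      rw [this]
      exact add_mem (Submodule.smul_mem_smul (hin _ (by rw [map_neg, h1', neg_zero])) gx)
        (Submodule.smul_mem_smul (hin _ (by rw [map_sub, map_one, h2', sub_self])) gy)
  · exfalso
    obtain ⟨f, hf, hle⟩ := Submodule.exists_le_ker_of_lt_top (LL k S I') (lt_top_iff_ne_top.2 hL)
    have hfe : ∀ u v : k, f (u, v) = u * f (1, 0) + v * f (0, 1) := by
      intro u v
      have : (u, v) = u • ((1 : k), (0 : k)) + v • ((0 : k), (1 : k)) := by simp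
      rw [this, map_add, map_smul, map_smul, smul_eq_mul, smul_eq_mul]
    obtain ⟨h1, h2⟩ := not_red k S hI (f (1, 0)) (f (0, 1)) (fun a b hab => by
      rw [← hfe]
      exact hle ⟨a, b, hab, rfl, rfl⟩) hr
    apply hf
    apply LinearMap.ext
    rintro ⟨u, v⟩
    rw [hfe, h1, h2]; simp

include k in
omit [IsLocalization.AtPrime S (mm k)] in
lemma inf_res [Infinite k] : Infinite (ResidueField S) :=
  Infinite.of_injective ((residue S).comp (cst k S)) (RingHom.injective _)

include k in
lemma cmS : IsCohenMacaulayLocalRing S := by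
  refine ⟨noeth k S, [vr k S 0, vr k S 1], ?_, sreg k S, ?_⟩
  · intro r hr
    simp only [List.mem_cons, List.not_mem_nil, or_false] at hr
    rcases hr with rfl | rfl <;> exact vr_mem k S _
  · rw [dimS k S]; rfl

end Q37.DN
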