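import Pool.Agent.Q37.DN.Co

/-! # Normal forms modulo the relations -/

set_option autoImplicit false

namespace Q37.DN

open IsLocalRing MvPolynomial

universe u

variable (k : Type u) [Field k]

/-- normal form of `h^a j^b g^e` -/
noncomputable def cl : ℕ → ℕ → ℕ → Po k
  | a, 0, 0 => if a < 5 then mo k 0 0 a 0 0 else if a = 5 then mo k 3 0 0 0 1 else 0
  | 0, b + 1, 0 => if b + 1 < 5 then mo k 0 0 0 (b + 1) 0 else if b + 1 = 5 then mo k 0 3 0 0 1 else 0
  | _ + 1, _ + 1, 0 => 0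
  | 0, 0, 1 => mo k 0 0 0 0 1
  | _ + 1, _, 1 => 0
  | _, _ + 1, 1 => 0
  | _, _, _ + 2 => 0

lemma cl1 (a b e : ℕ) : cl k (a + 5) b e = mo k 3 0 0 0 0 * cl k a b (e + 1) := by
  rcases e with _ | _ | e
  · rcases b with _ | b
    · rcases a with _ | a
      · simp [cl, mo_mul]
      · simp [cl]
    · rcases a with _ | a <;> simp [cl]
  · simp [cl]
  · simp [cl]

lemma cl2 (a b e : ℕ) : cl k a (b + 5) e = mo k 0 3 0 0 0 * cl k a b (e + 1) := by
  rcases e with _ | _ | e
  · rcases a with _ | a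
    · rcases b with _ | b
      · simp [cl, mo_mul]
      · simp [cl]
    · rcases b with _ | b <;> simp [cl]
  · rcases a with _ | a <;> simp [cl]
  · simp [cl]

lemma cl3 (a b e : ℕ) : cl k (a + 1) (b + 1) e = 0 := by
  rcases e with _ | _ | e <;> simp [cl]

lemma cl4 (a b e : ℕ) : cl k (a + 1) b (e + 1) = 0 := by
  rcases e with _ | e <;> simp [cl]

lemma cl5 (a b e : ℕ) : cl k a (b + 1) (e + 1) = 0 := by
  rcases a with _ | a <;> rcases e with _ | e <;> simp [cl]

lemma cl6 (a b e : ℕ) : cl k a b (e + 2) = 0 := by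
  simp [cl]

/-- the normal form map -/
noncomputable def nf : Po k →ₗ[k] Po k :=
  (basisMonomials (Fin 5) k).constr k fun m => mo k (m 0) (m 1) 0 0 0 * cl k (m 2) (m 3) (m 4)

lemma nf_mo (a b c d e : ℕ) : nf k (mo k a b c d e) = mo k a b 0 0 0 * cl k c d e := by
  have := (basisMonomials (Fin 5) k).constr_basis k
    (fun m => mo k (m 0) (m 1) 0 0 0 * cl k (m 2) (m 3) (m 4)) (mn a b c d e)
  rw [coe_basisMonomials] at this
  exact this

lemma lin_ext {M : Type*} [AddCommGroup M] [Module k M] {f g : Po k →ₗ[k] M}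
    (h : ∀ a b c d e, f (mo k a b c d e) = g (mo k a b c d e)) : f = g := by
  refine (basisMonomials (Fin 5) k).ext fun m => ?_
  rw [coe_basisMonomials]
  have := h (m 0) (m 1) (m 2) (m 3) (m 4)
  unfold mo at this
  rwa [mn_eta] at this

lemma nf_mul_mo (a b : ℕ) (f : Po k) : nf k (f * mo k a b 0 0 0) = nf k f * mo k a b 0 0 0 := by
  have : (nf k) ∘ₗ (LinearMap.mulRight k (mo k a b 0 0 0)) =
      (LinearMap.mulRight k (mo k a b 0 0 0)) ∘ₗ (nf k) := by
    apply lin_ext
    intro a' b' c d e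
    simp only [LinearMap.comp_apply, LinearMap.mulRight_apply, mo_mul, nf_mo, add_zero]
    rw [mul_right_comm, mo_mul, add_zero]
  exact LinearMap.congr_fun this f

lemma nf_rel (a b c d e a' b' c' d' e' : ℕ)
    (h : ∀ x y z, mo k a b 0 0 0 * cl k (x + c) (y + d) (z + e) =
      mo k a' b' 0 0 0 * cl k (x + c') (y + d') (z + e')) (f : Po k) :
    nf k (f * mo k a b c d e) = nf k (f * mo k a' b' c' d' e') := by
  have : (nf k) ∘ₗ (LinearMap.mulRight k (mo k a b c d e)) =
      (nf k) ∘ₗ (LinearMap.mulRight k (mo k a' b' c' d' e')) := by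
    apply lin_ext
    intro x0 x1 x2 x3 x4
    simp only [LinearMap.comp_apply, LinearMap.mulRight_apply, mo_mul, nf_mo]
    have e1 : mo k (x0 + a) (x1 + b) 0 0 0 = mo k x0 x1 0 0 0 * mo k a b 0 0 0 := by
      rw [mo_mul]
    have e2 : mo k (x0 + a') (x1 + b') 0 0 0 = mo k x0 x1 0 0 0 * mo k a' b' 0 0 0 := by
      rw [mo_mul]
    rw [e1, e2, mul_assoc, mul_assoc, h]
  exact LinearMap.congr_fun this f

lemma mo_zero : mo k 0 0 0 0 0 = 1 := by
  rw [mo_eq]; ring

lemma nf_zero (a b c d e : ℕ)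
    (h : ∀ x y z, cl k (x + c) (y + d) (z + e) = 0) (f : Po k) :
    nf k (f * mo k a b c d e) = 0 := by
  have : (nf k) ∘ₗ (LinearMap.mulRight k (mo k a b c d e)) = 0 := by
    apply lin_ext
    intro x0 x1 x2 x3 x4
    simp only [LinearMap.comp_apply, LinearMap.mulRight_apply, mo_mul, nf_mo, h, mul_zero,
      LinearMap.zero_apply]
  exact LinearMap.congr_fun this f

lemma nf_JJ {p : Po k} (hp : p ∈ JJ k) : nf k p = 0 := by
  unfold JJ at hp
  rw [rels_eq] at hp
  refine Submodule.span_induction (p := fun p _ => ∀ a : Po k, nf k (a * p) = 0) ?_ ?_ ?_ ?_ hp 1 |> fun h => by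
    rwa [one_mul] at h
  · intro p hp a
    simp only [Set.mem_insert_iff, Set.mem_singleton_iff] at hp
    rcases hp with rfl | rfl | rfl | rfl | rfl | rfl
    · rw [mul_sub, map_sub, sub_eq_zero]
      apply nf_rel
      intro x y z
      rw [mo_zero, one_mul]; exact cl1 k x y z
    · rw [mul_sub, map_sub, sub_eq_zero]
      apply nf_rel
      intro x y z
      rw [mo_zero, one_mul]; exact cl2 k x y z
    · apply nf_zero; intro x y z; exact cl3 k x y z
    · apply nf_zero; intro x y z; exact cl4 k x y z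
    · apply nf_zero; intro x y z; exact cl5 k x y z
    · apply nf_zero; intro x y z; exact cl6 k x y z
  · intro a; simp
  · intro p q _ _ h1 h2 a
    rw [mul_add, map_add, h1, h2, add_zero]
  · intro b p _ h1 a
    rw [smul_eq_mul, ← mul_assoc]; exact h1 _

lemma rel_mem {p : Po k} (hp : p ∈ rels k) : p ∈ JJ k := Ideal.subset_span hp

lemma cl_sub (a b e : ℕ) : mo k 0 0 a b e - cl k a b e ∈ JJ k := by
  have R1 : mo k 0 0 5 0 0 - mo k 3 0 0 0 1 ∈ JJ k := rel_mem k (by rw [rels_eq]; simp)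
  have R2 : mo k 0 0 0 5 0 - mo k 0 3 0 0 1 ∈ JJ k := rel_mem k (by rw [rels_eq]; simp)
  have R3 : mo k 0 0 1 1 0 ∈ JJ k := rel_mem k (by rw [rels_eq]; simp)
  have R4 : mo k 0 0 1 0 1 ∈ JJ k := rel_mem k (by rw [rels_eq]; simp)
  have R5 : mo k 0 0 0 1 1 ∈ JJ k := rel_mem k (by rw [rels_eq]; simp)
  have R6 : mo k 0 0 0 0 2 ∈ JJ k := rel_mem k (by rw [rels_eq]; simp)
  rcases e with _ | _ | e
  · rcases b with _ | b
    · by_cases ha : a < 5
      · simp [cl, ha]
      · by_cases ha' : a = 5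
        · subst ha'; simpa [cl] using R1
        · obtain ⟨c, rfl⟩ : ∃ c, a = c + 6 := ⟨a - 6, by omega⟩
          have e0 : cl k (c + 6) 0 0 = 0 := by simp [cl]
          rw [e0, sub_zero]
          have e1 : mo k 0 0 (c + 6) 0 0 = mo k 0 0 (c + 1) 0 0 * (mo k 0 0 5 0 0 - mo k 3 0 0 0 1)
              + mo k 3 0 c 0 0 * mo k 0 0 1 0 1 := by
            simp only [mul_sub, mo_mul]; simp
          rw [e1]
          exact add_mem (Ideal.mul_mem_left _ _ R1) (Ideal.mul_mem_left _ _ R4)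
    · rcases a with _ | a
      · by_cases hb : b + 1 < 5
        · simp [cl, hb]
        · by_cases hb' : b + 1 = 5
          · have : b = 4 := by omega
            subst this; simpa [cl] using R2
          · obtain ⟨c, rfl⟩ : ∃ c, b = c + 5 := ⟨b - 5, by omega⟩
            have e0 : cl k 0 (c + 5 + 1) 0 = 0 := by simp [cl]
            rw [e0, sub_zero]
            have e1 : mo k 0 0 0 (c + 5 + 1) 0 = mo k 0 0 0 (c + 1) 0 * (mo k 0 0 0 5 0 - mo k 0 3 0 0 1)
                + mo k 0 3 0 c 0 * mo k 0 0 0 1 1 := by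
              simp only [mul_sub, mo_mul]; simp
            rw [e1]
            exact add_mem (Ideal.mul_mem_left _ _ R2) (Ideal.mul_mem_left _ _ R5)
      · rw [cl3, sub_zero]
        have e1 : mo k 0 0 (a + 1) (b + 1) 0 = mo k 0 0 a b 0 * mo k 0 0 1 1 0 := by
          rw [mo_mul]
        rw [e1]
        exact Ideal.mul_mem_left _ _ R3
  · rcases a with _ | a
    · rcases b with _ | b
      · simp [cl]
      · rw [cl5, sub_zero]
        have e1 : mo k 0 0 0 (b + 1) (0 + 1) = mo k 0 0 0 b 0 * mo k 0 0 0 1 1 := by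
          rw [mo_mul]
        rw [e1]
        exact Ideal.mul_mem_left _ _ R5
    · rw [cl4, sub_zero]
      have e1 : mo k 0 0 (a + 1) b (0 + 1) = mo k 0 0 a b 0 * mo k 0 0 1 0 1 := by
        rw [mo_mul]; rfl
      rw [e1]
      exact Ideal.mul_mem_left _ _ R4
  · have h6 : cl k a b (e + 1 + 1) = 0 := cl6 k a b e
    rw [h6, sub_zero]
    have e1 : mo k 0 0 a b (e + 1 + 1) = mo k 0 0 a b e * mo k 0 0 0 0 2 := by
      rw [mo_mul]; rfl
    rw [e1]
    exact Ideal.mul_mem_left _ _ R6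

lemma sub_nf (f : Po k) : f - nf k f ∈ JJ k := by
  induction f using MvPolynomial.induction_on' with
  | monomial m a =>
    have e1 : monomial m a = a • mo k (m 0) (m 1) (m 2) (m 3) (m 4) := by
      unfold mo
      rw [mn_eta, smul_monomial, smul_eq_mul, mul_one]
    rw [e1, map_smul, nf_mo, ← smul_sub]
    have e2 : mo k (m 0) (m 1) (m 2) (m 3) (m 4) =
        mo k (m 0) (m 1) 0 0 0 * mo k 0 0 (m 2) (m 3) (m 4) := by
      rw [mo_mul]; simp
    rw [e2, ← mul_sub, MvPolynomial.smul_eq_C_mul]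
    exact Ideal.mul_mem_left _ _ (Ideal.mul_mem_left _ _ (cl_sub k _ _ _))
  | add p q h1 h2 =>
    rw [map_add]
    have : p + q - (nf k p + nf k q) = (p - nf k p) + (q - nf k q) := by ring
    rw [this]
    exact add_mem h1 h2

lemma mem_JJ_iff {f : Po k} : f ∈ JJ k ↔ nf k f = 0 := by
  refine ⟨nf_JJ k, fun h => ?_⟩
  have := sub_nf k f
  rwa [h, sub_zero] at this

/-! ### the regular sequence -/

lemma reg0 {f : Po k} (h : f * X 0 ∈ JJ k) : f ∈ JJ k := by
  rw [mem_JJ_iff, X0_eq, nf_mul_mo, ← X0_eq] at h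
  rw [mem_JJ_iff]
  exact (mul_eq_zero.1 h).resolve_right (X_ne_zero 0)

lemma reg1 {f g : Po k} (h : f * X 1 - g * X 0 ∈ JJ k) : ∃ u : Po k, f - u * X 0 ∈ JJ k := by
  rw [mem_JJ_iff, map_sub, X0_eq, X1_eq, nf_mul_mo, nf_mul_mo, ← X0_eq, ← X1_eq, sub_eq_zero] at h
  have hd : (X 0 : Po k) ∣ nf k f * X 1 := ⟨nf k g, by rw [h, mul_comm]⟩
  have hp : Prime (X 0 : Po k) := X_prime
  rcases hp.dvd_or_dvd hd with h0 | h0
  · obtain ⟨u, hu⟩ := h0
    refine ⟨u, ?_⟩
    have := sub_nf k f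
    rwa [hu, mul_comm] at this
  · exfalso
    rw [X_dvd_X] at h0
    simp at h0

end Q37.DN
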