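import Pool.Agent.Q37.DN.Gen

/-! # The ring `k[X, Y, h, j, g] / (h^5 - X^3 g, j^5 - Y^3 g, h j, g h, g j, g^2)` -/

set_option autoImplicit false

namespace Q37.DN

open IsLocalRing MvPolynomial

universe u

variable (k : Type u) [Field k]

abbrev Po : Type u := MvPolynomial (Fin 5) k

/-- the relations -/
def rels : Set (Po k) := {X 2 ^ 5 - X 0 ^ 3 * X 4, X 3 ^ 5 - X 1 ^ 3 * X 4, X 2 * X 3, X 4 * X 2,
  X 4 * X 3, X 4 ^ 2}

noncomputable def JJ : Ideal (Po k) := Ideal.span (rels k)

abbrev BB : Type u := Po k ⧸ JJ k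

/-- a homomorphism from `BB` that kills `h, j, g` -/
noncomputable def lin {S : Type u} [CommRing S] [Algebra k S] (p q : S) : BB k →ₐ[k] S :=
  Ideal.Quotient.liftₐ (JJ k) (aeval ![p, q, 0, 0, 0]) (by
    intro a ha
    have : JJ k ≤ RingHom.ker (aeval ![p, q, 0, 0, 0] : Po k →ₐ[k] S) := by
      unfold JJ
      rw [Ideal.span_le]
      rintro f hf
      simp only [rels, Set.mem_insert_iff, Set.mem_singleton_iff] at hf
      rcases hf with rfl | rfl | rfl | rfl | rfl | rfl <;> simp
    exact this ha)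

lemma lin_mk {S : Type u} [CommRing S] [Algebra k S] (p q : S) (f : Po k) :
    lin k p q (Ideal.Quotient.mk _ f) = aeval ![p, q, 0, 0, 0] f := rfl

/-- evaluation at the origin -/
noncomputable def ev : BB k →ₐ[k] k := lin k 0 0

/-- the maximal ideal of the origin -/
noncomputable def mm : Ideal (BB k) := RingHom.ker (ev k)

instance instPrimeMM : (mm k).IsPrime := RingHom.ker_isPrime _


lemma ev_mk (f : Po k) : ev k (Ideal.Quotient.mk _ f) = constantCoeff f := by
  unfold ev
  rw [lin_mk]
  have : (aeval ![0, 0, 0, 0, 0] : Po k →ₐ[k] k) = aeval (fun _ => 0) := by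
    congr 1; funext i; fin_cases i <;> rfl
  rw [this, aeval_zero']
  simp

/-! ### the maximal ideal -/

lemma ker_cc : (RingHom.ker (constantCoeff : Po k →+* k)) = Ideal.span (Set.range X) := by
  apply le_antisymm
  · intro f hf
    have h := mem_ideal_span_X_image (R := k) (x := f) (s := (Set.univ : Set (Fin 5)))
    rw [Set.image_univ] at h
    rw [h]
    intro m hm
    by_contra hc
    push Not at hc
    have : m = 0 := by ext i; exact hc i (Set.mem_univ i)
    subst this
    exact (mem_support_iff.1 hm) hf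
  · rw [Ideal.span_le]
    rintro _ ⟨i, rfl⟩
    show constantCoeff (X i) = 0
    simp

lemma mm_eq : mm k = Ideal.span (Set.range fun i : Fin 5 => Ideal.Quotient.mk (JJ k) (X i)) := by
  apply le_antisymm
  · intro b hb
    obtain ⟨f, rfl⟩ := Ideal.Quotient.mk_surjective b
    have h0 : f ∈ RingHom.ker (constantCoeff : Po k →+* k) := by
      have : ev k (Ideal.Quotient.mk _ f) = 0 := hb
      rwa [ev_mk] at this
    rw [ker_cc] at h0
    have := Ideal.mem_map_of_mem (Ideal.Quotient.mk (JJ k)) h0
    rwa [Ideal.map_span, ← Set.range_comp] at this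
  · rw [Ideal.span_le]
    rintro _ ⟨i, rfl⟩
    show ev k _ = 0
    rw [ev_mk]; simp

end Q37.DN
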